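import Mathlib
import Pool.Agent.W844.GP.Defs

/-!
# Project GP (S19171, MP_18bc13_pr), subtask GP-CON: open connections (`S_CON`)
-/

set_option autoImplicit false

open Finset MeasureTheory ProbabilityTheory Filter Topology
open scoped ENNReal

namespace Pool.Agent.W683.GPCon

open Pool.Agent.W844.VG (V stp nm)
open Pool.Agent.W844.GP

variable {d : ℕ}

theorem nm_le_iff (x : V d) (n : ℕ) : nm x ≤ n ↔ ∀ j, (x j).natAbs ≤ n := by
  unfold nm; simp [Finset.sup_le_iff]

theorem le_nm (x : V d) (j : Fin d) : (x j).natAbs ≤ nm x := (nm_le_iff x _).1 le_rfl j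

/-! ### the deterministic chain -/

theorem l1path (n : ℕ) : ∀ u v : V d, ∑ j, (v j - u j).natAbs = n →
    ∃ l : List (V d), (u :: l).IsChain adj ∧ (u :: l).getLast? = some v ∧ l.length = n ∧
      ∀ z ∈ u :: l, ∀ j, (u j ≤ z j ∧ z j ≤ v j) ∨ (v j ≤ z j ∧ z j ≤ u j) := by
  induction n with
  | zero =>
    intro u v h
    have huv : u = v := by
      funext j
      have := (Finset.sum_eq_zero_iff.1 h) j (mem_univ j)
      omega
    subst huv
    exact ⟨[], by simp, by simp, by simp, by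
      intro z hz j
      simp only [List.mem_singleton] at hz
      subst hz
      exact Or.inl ⟨le_rfl, le_rfl⟩⟩
  | succ n ih =>
    intro u v h
    obtain ⟨j, hj⟩ : ∃ j, v j ≠ u j := by
      by_contra hcon
      push Not at hcon
      rw [Finset.sum_eq_zero (fun j _ => by rw [hcon j]; simp)] at h
      omega
    obtain ⟨s, hs, hs'⟩ : ∃ s : ℤ, |s| = 1 ∧ (v j - (u j + s)).natAbs + 1 = (v j - u j).natAbs ∧
        ((u j ≤ u j + s ∧ u j + s ≤ v j) ∨ (v j ≤ u j + s ∧ u j + s ≤ u j)) := by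
      rcases lt_or_gt_of_ne hj with hlt | hlt
      · exact ⟨-1, by norm_num, by omega, by omega⟩
      · exact ⟨1, by norm_num, by omega, by omega⟩
    set u' : V d := Function.update u j (u j + s) with hu'
    have hu'j : u' j = u j + s := by simp [hu']
    have hu'k : ∀ k, k ≠ j → u' k = u k := fun k hk => by simp [hu', hk]
    have hsum : ∑ k, (v k - u' k).natAbs = n := by
      have e1 := Finset.add_sum_erase univ (fun k => (v k - u' k).natAbs) (mem_univ j)
      have e2 := Finset.add_sum_erase univ (fun k => (v k - u k).natAbs) (mem_univ j)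
      have e3 : ∑ k ∈ univ.erase j, (v k - u' k).natAbs = ∑ k ∈ univ.erase j, (v k - u k).natAbs :=
        Finset.sum_congr rfl fun k hk => by rw [hu'k k (Finset.ne_of_mem_erase hk)]
      simp only [hu'j] at e1
      rw [e3] at e1
      have := hs'.1
      omega
    obtain ⟨l, hl1, hl2, hl3, hl4⟩ := ih u' v hsum
    refine ⟨u' :: l, ?_, ?_, by simp [hl3], ?_⟩
    · rw [List.isChain_cons_cons]
      refine ⟨?_, hl1⟩
      unfold adj
      rw [Finset.sum_eq_single j]
      · rw [hu'j]; simpa using hs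
      · intro k _ hk
        rw [hu'k k hk]; simp
      · simp
    · rw [List.getLast?_cons_cons]; exact hl2
    · intro z hz k
      rcases List.mem_cons.1 hz with rfl | hz
      · rcases le_total (z k) (v k) with h' | h'
        · exact Or.inl ⟨le_rfl, h'⟩
        · exact Or.inr ⟨h', le_rfl⟩
      · have h4 := hl4 z hz k
        by_cases hk : k = j
        · subst hk
          rw [hu'j] at h4
          have := hs'.2
          omega
        · rw [hu'k k hk] at h4
          exact h4

theorem chain_cat {x p q : V d} {l1 l2 : List (V d)} (h1 : (x :: l1).IsChain adj)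
    (h1' : (x :: l1).getLast? = some p) (h2 : (p :: l2).IsChain adj)
    (h2' : (p :: l2).getLast? = some q) :
    (x :: (l1 ++ l2)).IsChain adj ∧ (x :: (l1 ++ l2)).getLast? = some q := by
  rw [← List.cons_append]
  rw [List.isChain_cons] at h2
  refine ⟨?_, ?_⟩
  · rw [List.isChain_append]
    refine ⟨h1, h2.2, ?_⟩
    intro a ha b hb
    rw [h1'] at ha
    simp only [Option.mem_def, Option.some.injEq] at ha
    subst ha
    exact h2.1 b hb
  · rw [List.getLast?_append]
    cases l2 with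
    | nil =>
      simp only [List.getLast?_singleton, Option.some.injEq] at h2'
      subst h2'
      simpa using h1'
    | cons b l2 =>
      rw [List.getLast?_cons_cons] at h2'
      rw [h2']; rfl

/-- the chain: up by `h`, across, up by `h` -/
theorem base_chain (i : Fin d) (x y : V d) (h : ℕ) (hxy : x i + 2 * h ≤ y i) :
    ∃ l : List (V d), (x :: l).IsChain adj ∧ (x :: l).getLast? = some y ∧
      l.length ≤ 2 * h + d * nm (y - x) ∧
      ∀ z ∈ x :: l, z = x ∨ z = y ∨ (∃ k : ℕ, 1 ≤ k ∧ k < h ∧ z = x + pt i k) ∨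
        (∃ k : ℕ, 1 ≤ k ∧ k < h ∧ z = y - pt i k) ∨ (x i + h ≤ z i ∧ z i + h ≤ y i) := by
  have hi1 : ∀ m : ℤ, (pt i m : V d) i = m := fun m => by simp [pt]
  have hi2 : ∀ (m : ℤ) (j : Fin d), j ≠ i → (pt i m : V d) j = 0 := fun m j hj => by
    simp [pt, hj]
  obtain ⟨l1, a1, a2, a3, a4⟩ := l1path _ x (x + pt i h) rfl
  obtain ⟨l2, b1, b2, b3, b4⟩ := l1path _ (x + pt i h) (y - pt i h) rfl
  obtain ⟨l3, c1, c2, c3, c4⟩ := l1path _ (y - pt i h) y rfl
  obtain ⟨e1, e2⟩ := chain_cat a1 a2 b1 b2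
  obtain ⟨f1, f2⟩ := chain_cat e1 e2 c1 c2
  refine ⟨(l1 ++ l2) ++ l3, f1, f2, ?_, ?_⟩
  · have k1 : l1.length = h := by
      rw [a3, Finset.sum_eq_single i]
      · simp [hi1]
      · intro j _ hj; simp [hi2 _ j hj]
      · simp
    have k3 : l3.length = h := by
      rw [c3, Finset.sum_eq_single i]
      · simp [hi1]
      · intro j _ hj; simp [hi2 _ j hj]
      · simp
    have k2 : l2.length ≤ d * nm (y - x) := by
      rw [b3]
      calc ∑ j, ((y - pt i (h : ℤ)) j - (x + pt i (h : ℤ)) j).natAbs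
          ≤ ∑ _j : Fin d, nm (y - x) := by
            refine Finset.sum_le_sum fun j _ => ?_
            refine le_trans ?_ (le_nm (y - x) j)
            by_cases hj : j = i
            · subst hj
              simp only [Pi.sub_apply, Pi.add_apply, hi1]
              omega
            · simp only [Pi.sub_apply, Pi.add_apply, hi2 _ j hj]
              simp
        _ = d * nm (y - x) := by simp
    simp only [List.length_append]
    omega
  · intro z hz
    have hz' : z ∈ x :: l1 ∨ z ∈ (x + pt i (h : ℤ)) :: l2 ∨ z ∈ (y - pt i (h : ℤ)) :: l3 := by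
      simp only [List.mem_cons, List.mem_append] at hz ⊢
      tauto
    rcases hz' with hz' | hz' | hz'
    · have h4 := a4 z hz'
      have h4i := h4 i
      simp only [Pi.add_apply, hi1] at h4i
      have hzx : z = x + pt i (z i - x i) := by
        funext j
        by_cases hj : j = i
        · subst hj; simp [hi1]
        · have := h4 j
          simp only [Pi.add_apply, hi2 _ j hj] at this ⊢
          omega
      by_cases h0 : z i = x i
      · left; rw [hzx, h0]; funext j
        by_cases hj : j = i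
        · subst hj; simp [hi1]
        · simp [hi2 _ j hj]
      by_cases h1 : z i = x i + h
      · right; right; right; right
        omega
      · right; right; left
        refine ⟨(z i - x i).toNat, by omega, by omega, ?_⟩
        rw [Int.toNat_of_nonneg (by omega)]
        exact hzx
    · have h4i := b4 z hz' i
      simp only [Pi.add_apply, Pi.sub_apply, hi1] at h4i
      right; right; right; right
      omega
    · have h4 := c4 z hz'
      have h4i := h4 i
      simp only [Pi.sub_apply, hi1] at h4i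
      have hzx : z = y - pt i (y i - z i) := by
        funext j
        by_cases hj : j = i
        · subst hj; simp [hi1]
        · have := h4 j
          simp only [Pi.sub_apply, hi2 _ j hj] at this ⊢
          omega
      by_cases h0 : z i = y i
      · right; left; rw [hzx, h0]; funext j
        by_cases hj : j = i
        · subst hj; simp [hi1]
        · simp [hi2 _ j hj]
      by_cases h1 : z i + h = y i
      · right; right; right; right
        omega
      · right; right; right; left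
        refine ⟨(y i - z i).toNat, by omega, by omega, ?_⟩
        rw [Int.toNat_of_nonneg (by omega)]
        exact hzx

/-! ### hulls -/

theorem far_zero (K : ℝ) (w : V d → ℝ) (x : V d) : Far K w x 0 :=
  ⟨x, ⟨x, rfl, Relation.ReflTransGen.refl⟩, Nat.zero_le _⟩

theorem not_far {K : ℝ} {w : V d → ℝ} {x : V d} {k : ℕ} (h : ¬ Far K w x k) :
    ∀ y ∈ Hull (Cl K w) {x}, nm (y - x) < k := by
  intro y hy
  by_contra hcon
  exact h ⟨y, hy, not_lt.1 hcon⟩

theorem exists_rho {K : ℝ} {w : V d → ℝ} {x : V d} {k : ℕ} (h : ¬ Far K w x k) :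
    ∃ ρ : ℕ, Far K w x ρ ∧ ∀ y ∈ Hull (Cl K w) {x}, nm (y - x) ≤ ρ := by
  classical
  have hex : ∃ k, ¬ Far K w x k := ⟨k, h⟩
  have h0 : Nat.find hex ≠ 0 := by
    intro h0
    have := Nat.find_spec hex
    rw [h0] at this
    exact this (far_zero K w x)
  refine ⟨Nat.find hex - 1, ?_, ?_⟩
  · have := Nat.find_min hex (m := Nat.find hex - 1) (by omega)
    exact not_not.1 this
  · intro y hy
    have := not_far (Nat.find_spec hex) y hy
    omega

theorem ball_card (z : V d) (r : ℕ) (S : Finset (V d)) (hS : ∀ a ∈ S, nm (a - z) ≤ r) :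
    S.card ≤ (2 * r + 1) ^ d := by
  classical
  have hsub : S ⊆ Fintype.piFinset fun j => Finset.Icc (z j - r) (z j + r) := by
    intro a ha
    rw [Fintype.mem_piFinset]
    intro j
    rw [Finset.mem_Icc]
    have h1 := le_nm (a - z) j
    have h2 := hS a ha
    simp only [Pi.sub_apply] at h1
    omega
  refine (Finset.card_le_card hsub).trans ?_
  rw [Fintype.card_piFinset]
  refine le_of_eq ?_
  have : ∀ j : Fin d, (Finset.Icc (z j - r) (z j + r)).card = 2 * r + 1 := by
    intro j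
    rw [Int.card_Icc]
    omega
  rw [Finset.prod_congr rfl fun j _ => this j]
  simp

theorem nm_tri (a b c : V d) : nm (a - c) ≤ nm (a - b) + nm (b - c) := by
  rw [nm_le_iff]
  intro j
  have h1 := le_nm (a - b) j
  have h2 := le_nm (b - c) j
  simp only [Pi.sub_apply] at *
  omega

theorem card_nb_le {K : ℝ} {w : V d → ℝ} {z : V d} {k : ℕ} (h : ¬ Far K w z k)
    (S : Finset (V d)) (hS : ∀ a ∈ S, a ∈ Nb (Hull (Cl K w) {z}) 2) :
    (S.card : ℝ≥0∞) ≤ GG d K w z := by
  classical
  obtain ⟨ρ, h1, h2⟩ := exists_rho h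
  have h3 : S.card ≤ (2 * (ρ + 2) + 1) ^ d := by
    refine ball_card z (ρ + 2) S fun a ha => ?_
    obtain ⟨b, hb, hab⟩ := hS a ha
    have := h2 b hb
    have := nm_tri a b z
    omega
  have h4 : ((2 * (ρ : ℝ≥0∞) + 7) ^ d : ℝ≥0∞) ≤ GG d K w z := by
    unfold GG
    refine le_trans ?_ (ENNReal.le_tsum ρ)
    rw [if_pos h1]
  refine le_trans ?_ h4
  have h5 : (2 * (ρ + 2) + 1) ^ d ≤ (2 * ρ + 7) ^ d := Nat.pow_le_pow_left (by omega) d
  have h6 : S.card ≤ (2 * ρ + 7) ^ d := h3.trans h5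
  exact_mod_cast h6

/-! ### the deterministic step -/

theorem det_step (hSUR : S_SUR) (i : Fin d) (hd : 2 ≤ d) (w : V d → ℝ) (K : ℝ) (x y : V d)
    (hxy : x i < y i) (l : List (V d)) (hl1 : (x :: l).IsChain adj)
    (hl2 : (x :: l).getLast? = some y)
    (hl3 : ∀ z ∈ l, z ≠ x → z ≠ y → x i < z i ∧ z i < y i)
    (hl4 : ∀ z ∈ l, z ≠ x → z ≠ y → z ∈ Cl K w → ∃ r : ℕ, ¬ Far K w z (r - 2) ∧ x i + r ≤ z i ∧
      z i + r ≤ y i) (n : ℕ) (hn : ∑ z ∈ l.toFinset, GG d K w z ≤ n) :
    Con K w i (l.length + n) x y := by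
  classical
  set A : Set (V d) := {a | ∃ z ∈ l, z ≠ x ∧ z ≠ y ∧ z ∈ Cl K w ∧ a ∈ Hull (Cl K w) {z}} with hA
  have hAh : ∀ a ∈ A, x i + 2 < a i ∧ a i + 2 < y i := by
    rintro a ⟨z, hz, hzx, hzy, hzc, ha⟩
    obtain ⟨r, hr1, hr2, hr3⟩ := hl4 z hz hzx hzy hzc
    have h1 := not_far hr1 a ha
    have h2 := le_nm (a - z) i
    simp only [Pi.sub_apply] at h2
    omega
  have hAfin : A.Finite := by
    have hsub : A ⊆ ⋃ z ∈ {z | z ∈ l ∧ z ≠ x ∧ z ≠ y ∧ z ∈ Cl K w}, Hull (Cl K w) {z} := by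
      rintro a ⟨z, hz, hzx, hzy, hzc, ha⟩
      exact Set.mem_biUnion (show z ∈ {z | z ∈ l ∧ z ≠ x ∧ z ≠ y ∧ z ∈ Cl K w} from
        ⟨hz, hzx, hzy, hzc⟩) ha
    refine Set.Finite.subset ?_ hsub
    refine Set.Finite.biUnion ?_ ?_
    · refine Set.Finite.subset l.toFinset.finite_toSet ?_
      rintro z ⟨hz, -⟩
      simpa using hz
    · rintro z ⟨hz, hzx, hzy, hzc⟩
      obtain ⟨r, hr1, -⟩ := hl4 z hz hzx hzy hzc
      refine Set.Finite.subset (s := ((Fintype.piFinset fun j =>
        Finset.Icc (z j - (r : ℤ)) (z j + r) : Finset (V d)) : Set (V d)))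
        (Finset.finite_toSet _) ?_
      intro a ha
      rw [Finset.mem_coe, Fintype.mem_piFinset]
      intro j
      rw [Finset.mem_Icc]
      have h1 := le_nm (a - z) j
      have h2 := not_far hr1 a ha
      simp only [Pi.sub_apply] at h1
      omega
  obtain ⟨l', hp, hlast, hv⟩ := hSUR d i hd A hAfin x y l hl1 hl2
    (fun a ha => by have := hAh a ha; omega)
  have hne : l' ≠ [] := by
    rintro rfl
    simp only [List.getLast?_singleton, Option.some.injEq] at hlast
    rw [hlast] at hxy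
    exact lt_irrefl _ hxy
  obtain ⟨l'', hl''⟩ : ∃ l'', l' = l'' ++ [y] := by
    refine ⟨l'.dropLast, ?_⟩
    have h1 : l'.getLast? = some y := by
      cases l' with
      | nil => exact absurd rfl hne
      | cons b t => rw [List.getLast?_cons_cons] at hlast; exact hlast
    have h2 := List.dropLast_append_getLast hne
    rw [List.getLast?_eq_some_getLast hne] at h1
    simp only [Option.some.injEq] at h1
    rw [h1] at h2
    exact h2.symm
  subst hl''
  have hnd := hp.2
  rw [List.nodup_cons, List.nodup_append] at hnd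
  have hzne : ∀ z ∈ l'', z ≠ x ∧ z ≠ y := by
    intro z hz
    refine ⟨?_, ?_⟩
    · rintro rfl
      exact hnd.1 (List.mem_append_left _ hz)
    · exact hnd.2.2.2 z hz y (List.mem_singleton_self y)
  have hclass : ∀ z ∈ l'', z ∉ A ∧ (z ∈ l ∨ z ∈ Nb A 2) := by
    intro z hz
    have h1 := hv z (List.mem_cons_of_mem _ (List.mem_append_left _ hz))
    refine ⟨h1.1, ?_⟩
    rcases h1.2 with h2 | h2
    · rcases List.mem_cons.1 h2 with h3 | h3
      · exact absurd h3 (hzne z hz).1
      · exact Or.inl h3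
    · exact Or.inr h2
  refine ⟨hxy, l'', hp, ?_, ?_⟩
  · have hc1 : l''.length = l''.toFinset.card :=
      (List.toFinset_card_of_nodup hnd.2.1).symm
    have hc2 : l''.toFinset ⊆ l.toFinset ∪ l''.toFinset.filter (fun z => z ∈ Nb A 2) := by
      intro z hz
      have hz' : z ∈ l'' := by simpa using hz
      rw [Finset.mem_union, Finset.mem_filter]
      rcases (hclass z hz').2 with h | h
      · left; simpa using h
      · right; exact ⟨hz, h⟩
    have hc3 : (l''.toFinset.filter (fun z => z ∈ Nb A 2)).card ≤ n := by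
      have h1 : l''.toFinset.filter (fun z => z ∈ Nb A 2) ⊆
          (l.toFinset.filter (fun z => z ≠ x ∧ z ≠ y ∧ z ∈ Cl K w)).biUnion fun z =>
            l''.toFinset.filter (fun a => a ∈ Nb (Hull (Cl K w) {z}) 2) := by
        intro a ha
        rw [Finset.mem_filter] at ha
        obtain ⟨b, ⟨z, hz, hzx, hzy, hzc, hb⟩, hab⟩ := ha.2
        rw [Finset.mem_biUnion]
        refine ⟨z, ?_, ?_⟩
        · rw [Finset.mem_filter]
          exact ⟨by simpa using hz, hzx, hzy, hzc⟩
        · rw [Finset.mem_filter]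
          exact ⟨ha.1, b, hb, hab⟩
      have h2 := (Finset.card_le_card h1).trans Finset.card_biUnion_le
      have h3 : ((∑ z ∈ l.toFinset.filter (fun z => z ≠ x ∧ z ≠ y ∧ z ∈ Cl K w),
          (l''.toFinset.filter (fun a => a ∈ Nb (Hull (Cl K w) {z}) 2)).card : ℕ) : ℝ≥0∞) ≤
          ∑ z ∈ l.toFinset, GG d K w z := by
        rw [Nat.cast_sum]
        calc ∑ z ∈ l.toFinset.filter (fun z => z ≠ x ∧ z ≠ y ∧ z ∈ Cl K w),
            ((l''.toFinset.filter (fun a => a ∈ Nb (Hull (Cl K w) {z}) 2)).card : ℝ≥0∞)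
            ≤ ∑ z ∈ l.toFinset.filter (fun z => z ≠ x ∧ z ≠ y ∧ z ∈ Cl K w), GG d K w z := by
              refine Finset.sum_le_sum fun z hz => ?_
              rw [Finset.mem_filter] at hz
              have hz' : z ∈ l := by simpa using hz.1
              obtain ⟨r, hr1, -⟩ := hl4 z hz' hz.2.1 hz.2.2.1 hz.2.2.2
              refine card_nb_le hr1 _ fun a ha => ?_
              rw [Finset.mem_filter] at ha
              exact ha.2
          _ ≤ ∑ z ∈ l.toFinset, GG d K w z :=
              Finset.sum_le_sum_of_subset (Finset.filter_subset _ _)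
      have h4 : ((l''.toFinset.filter (fun z => z ∈ Nb A 2)).card : ℝ≥0∞) ≤ n := by
        refine le_trans ?_ (h3.trans hn)
        exact_mod_cast h2
      exact_mod_cast h4
    have hc4 := (Finset.card_le_card hc2).trans (Finset.card_union_le _ _)
    have hc5 := List.toFinset_card_le l
    omega
  · intro z hz
    obtain ⟨h1, h2⟩ := hclass z hz
    obtain ⟨h3, h4⟩ := hzne z hz
    rcases h2 with h2 | ⟨a, ha, hza⟩
    · obtain ⟨h5, h6⟩ := hl3 z h2 h3 h4
      refine ⟨h5, h6, ?_⟩
      by_contra hcon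
      rw [not_le] at hcon
      exact h1 ⟨z, h2, h3, h4, hcon, ⟨z, rfl, Relation.ReflTransGen.refl⟩⟩
    · have h5 := hAh a ha
      have h6 := le_nm (z - a) i
      simp only [Pi.sub_apply] at h6
      refine ⟨by omega, by omega, ?_⟩
      by_contra hcon
      rw [not_le] at hcon
      obtain ⟨z', hz', hzx, hzy, hzc, b, hb, hba⟩ := ha
      exact h1 ⟨z', hz', hzx, hzy, hzc, b, hb, hba.tail ⟨hcon, hza⟩⟩

/-! ### probability -/

instance (ν : Measure ℝ) [IsProbabilityMeasure ν] : IsProbabilityMeasure (law ν d) := by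
  unfold law; infer_instance

theorem bad_prob (hT : S_TAIL) (ν : Measure ℝ) [IsProbabilityMeasure ν] (K : ℝ)
    (hq : ν (Set.Iio (-K)) ≤ q0 d) (z : V d) (k : ℕ) :
    law ν d {w | z ∈ Cl K w ∧ Far K w z (k - 2)} ≤ ENNReal.ofReal (Real.exp (-(4 * (k : ℝ)))) := by
  refine (hT d ν K hq z (k - 2)).2.trans (ENNReal.ofReal_le_ofReal (Real.exp_le_exp.2 ?_))
  have h1 : (k : ℝ) ≤ ((k - 2 : ℕ) : ℝ) + 2 := by
    exact_mod_cast (by omega : k ≤ (k - 2) + 2)
  linarith

theorem exp_four : Real.exp (-4) ≤ 1 / 16 := by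
  have h1 : (2 : ℝ) ≤ Real.exp 1 := by
    have := Real.add_one_le_exp (1 : ℝ)
    linarith
  have h2 : (16 : ℝ) ≤ Real.exp 4 := by
    have h3 : Real.exp 4 = Real.exp 1 ^ 4 := by
      rw [← Real.exp_nat_mul]; norm_num
    rw [h3]
    calc (16 : ℝ) = 2 ^ 4 := by norm_num
      _ ≤ Real.exp 1 ^ 4 := pow_le_pow_left₀ (by norm_num) h1 4
  rw [Real.exp_neg, inv_eq_one_div]
  exact one_div_le_one_div_of_le (by norm_num) h2

theorem geo_aux (h : ℕ) :
    ∑ k ∈ range h, ((1 : ℝ) / 16) ^ (k + 1) + 1 / 15 * (1 / 16) ^ h = 1 / 15 := by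
  induction h with
  | zero => simp
  | succ h ih =>
    rw [Finset.sum_range_succ]
    rw [pow_succ] at *
    linarith

theorem geo (h : ℕ) : ∑ k ∈ range h, Real.exp (-(4 * ((k + 1 : ℕ) : ℝ))) ≤ 1 / 15 := by
  have h1 := geo_aux h
  have h2 : ∑ k ∈ range h, Real.exp (-(4 * ((k + 1 : ℕ) : ℝ))) ≤
      ∑ k ∈ range h, ((1 : ℝ) / 16) ^ (k + 1) := by
    refine Finset.sum_le_sum fun k _ => ?_
    have h3 : Real.exp (-(4 * ((k + 1 : ℕ) : ℝ))) = Real.exp (-4) ^ (k + 1) := by
      rw [← Real.exp_nat_mul]; congr 1; ring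
    rw [h3]
    exact pow_le_pow_left₀ (Real.exp_nonneg _) exp_four _
  have h3 : (0 : ℝ) ≤ 1 / 15 * (1 / 16) ^ h := by positivity
  linarith

theorem sum_finite (d : ℕ) :
    ∑' k : ℕ, ((2 * (k : ℝ≥0∞) + 7) ^ d) * ENNReal.ofReal (Real.exp (-(4 * (k : ℝ)))) ≠ ⊤ := by
  have hs : Summable fun k : ℕ => (2 * (k : ℝ) + 7) ^ d * Real.exp (-(4 * (k : ℝ))) := by
    have h1 := Real.summable_pow_mul_exp_neg_nat_mul d (show (0 : ℝ) < 4 by norm_num)
    have h2 := (summable_nat_add_iff 1).2 h1
    have h3 := h2.mul_left (9 ^ d * Real.exp 4)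
    refine Summable.of_nonneg_of_le (fun k => by positivity) (fun k => ?_) h3
    have h4 : (2 * (k : ℝ) + 7) ^ d ≤ 9 ^ d * ((k + 1 : ℕ) : ℝ) ^ d := by
      rw [← mul_pow]
      refine pow_le_pow_left₀ (by positivity) ?_ d
      push_cast
      have : (0 : ℝ) ≤ k := Nat.cast_nonneg k
      linarith
    have h5 : Real.exp (-(4 * (k : ℝ))) = Real.exp 4 * Real.exp (-4 * ((k + 1 : ℕ) : ℝ)) := by
      rw [← Real.exp_add]; congr 1; push_cast; ring
    rw [h5]
    calc (2 * (k : ℝ) + 7) ^ d * (Real.exp 4 * Real.exp (-4 * ((k + 1 : ℕ) : ℝ)))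
        ≤ (9 ^ d * ((k + 1 : ℕ) : ℝ) ^ d) * (Real.exp 4 * Real.exp (-4 * ((k + 1 : ℕ) : ℝ))) :=
          mul_le_mul_of_nonneg_right h4 (by positivity)
      _ = _ := by ring
  have h1 := hs.tsum_ofReal_ne_top
  refine ne_of_eq_of_ne (tsum_congr fun k => ?_) h1
  rw [ENNReal.ofReal_mul (by positivity)]
  congr 1
  rw [ENNReal.ofReal_pow (by positivity)]
  congr 1
  rw [ENNReal.ofReal_add (by positivity) (by norm_num), ENNReal.ofReal_mul (by norm_num)]
  simp

theorem lint_GG (hT : S_TAIL) (hM : S_MEAS) (ν : Measure ℝ) [IsProbabilityMeasure ν] (K : ℝ)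
    (hq : ν (Set.Iio (-K)) ≤ q0 d) (z : V d) :
    ∫⁻ w, GG d K w z ∂law ν d ≤
      ∑' k : ℕ, ((2 * (k : ℝ≥0∞) + 7) ^ d) * ENNReal.ofReal (Real.exp (-(4 * (k : ℝ)))) := by
  classical
  have hmeas : ∀ k : ℕ, MeasurableSet {w : V d → ℝ | Far K w z k} := (hM d).2.2.1 K z
  have h1 : ∀ w : V d → ℝ, GG d K w z = ∑' k : ℕ,
      Set.indicator {w : V d → ℝ | Far K w z k} (fun _ => ((2 * (k : ℝ≥0∞) + 7) ^ d)) w := by
    intro w
    unfold GG
    refine tsum_congr fun k => ?_
    by_cases h : Far K w z k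
    · rw [if_pos h, Set.indicator_of_mem (by exact h)]
    · rw [if_neg h, Set.indicator_of_notMem (by exact h)]
  simp_rw [h1]
  rw [lintegral_tsum fun k => (measurable_const.indicator (hmeas k)).aemeasurable]
  refine ENNReal.tsum_le_tsum fun k => ?_
  rw [lintegral_indicator_const (hmeas k)]
  exact mul_le_mul_right ((hT d ν K hq z k).1) _

theorem small_prob {d g : ℕ} (hg : 204 * d + 2 ≤ g) :
    ((17 * d * g : ℕ) : ℝ) * Real.exp (-(4 * ((g / 2 : ℕ) : ℝ))) ≤ 1 / 16 := by
  set h : ℕ := g / 2 with hh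
  have h1 : g ≤ 2 * h + 1 := by omega
  have h2 : 102 * d + 1 ≤ h := by omega
  have h3 : (g : ℝ) ≤ 3 * h := by
    have : g ≤ 3 * h := by omega
    exact_mod_cast this
  have h4 : (102 : ℝ) * d ≤ h := by
    have : 102 * d ≤ h := by omega
    exact_mod_cast this
  have h5 := Real.quadratic_le_exp_of_nonneg (show (0 : ℝ) ≤ 4 * h by positivity)
  have h6 : (0 : ℝ) ≤ h := Nat.cast_nonneg h
  rw [Real.exp_neg, ← div_eq_mul_inv, div_le_iff₀ (Real.exp_pos _)]
  have h7 : (8 : ℝ) * h ^ 2 ≤ Real.exp (4 * h) := by nlinarith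
  have h8 : (16 : ℝ) * (17 * d * g) ≤ 8 * h ^ 2 := by
    have h9 : (d : ℝ) * g ≤ d * (3 * h) := mul_le_mul_of_nonneg_left h3 (Nat.cast_nonneg d)
    have h10 : (102 : ℝ) * d * h ≤ h * h := mul_le_mul_of_nonneg_right h4 h6
    nlinarith
  push_cast
  linarith

theorem s_con (hSUR : S_SUR) (hT : S_TAIL) (hM : S_MEAS) : S_CON := by
  classical
  intro d i hd
  obtain ⟨M, hMM⟩ := ENNReal.exists_nat_gt (sum_finite d)
  have hM1 : 1 ≤ M := by
    by_contra hcon
    have : M = 0 := by omega
    subst this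
    simp at hMM
  refine ⟨17 * d * (1 + 4 * M), 204 * d + 2, ?_⟩
  intro ν _ K hq g hg x y hxy hnm
  set h : ℕ := g / 2 with hh
  obtain ⟨l, hl1, hl2, hl3, hl4⟩ := base_chain i x y h (by omega)
  set N : ℕ := 17 * d * g with hN
  have hg1 : 1 ≤ g := by omega
  have hNpos : 1 ≤ N := by
    rw [hN]
    have : 0 < 17 * d * g := by positivity
    omega
  have hlN : l.length ≤ N := by
    have h1 : d * nm (y - x) ≤ d * (16 * g) := Nat.mul_le_mul_left d hnm
    have h2 : g ≤ d * g := Nat.le_mul_of_pos_left g (by omega)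
    have h3 : N = d * (16 * g) + d * g := by rw [hN]; ring
    omega
  set B : V d → ℕ → Set (V d → ℝ) := fun z k => {w | z ∈ Cl K w ∧ Far K w z (k - 2)} with hB
  have hBp : ∀ z k, law ν d (B z k) ≤ ENNReal.ofReal (Real.exp (-(4 * (k : ℝ)))) :=
    fun z k => bad_prob hT ν K hq z k
  set E1 : Set (V d → ℝ) := ⋃ k ∈ range h, B (x + pt i ((k + 1 : ℕ) : ℤ)) (k + 1) with hE1
  set E2 : Set (V d → ℝ) := ⋃ k ∈ range h, B (y - pt i ((k + 1 : ℕ) : ℤ)) (k + 1) with hE2
  set E3 : Set (V d → ℝ) := ⋃ z ∈ l.toFinset, B z h with hE3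
  set E4 : Set (V d → ℝ) := {w | ((4 * M * N : ℕ) : ℝ≥0∞) ≤ ∑ z ∈ l.toFinset, GG d K w z} with hE4
  have hi1 : ∀ m : ℤ, (pt i m : V d) i = m := fun m => by simp [pt]
  have hsub : (Set.univ : Set (V d → ℝ)) ⊆
      {w | Con K w i (17 * d * (1 + 4 * M) * g) x y} ∪ (E1 ∪ (E2 ∪ (E3 ∪ E4))) := by
    intro w _
    by_contra hcon
    simp only [Set.mem_union, not_or] at hcon
    obtain ⟨hc, h1, h2, h3, h4⟩ := hcon
    refine hc ?_
    simp only [hE1, hE2, hE3, Set.mem_iUnion, not_exists, Finset.mem_range, List.mem_toFinset]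
      at h1 h2 h3
    rw [hE4] at h4
    have h4' : ∑ z ∈ l.toFinset, GG d K w z < ((4 * M * N : ℕ) : ℝ≥0∞) := not_le.1 h4
    have hcon := det_step hSUR i hd w K x y (by omega) l hl1 hl2 ?_ ?_ (4 * M * N) h4'.le
    · obtain ⟨c1, l', c2, c3, c4⟩ := hcon
      refine ⟨c1, l', c2, c3.trans ?_, c4⟩
      have : 17 * d * (1 + 4 * M) * g = N + 4 * M * N := by rw [hN]; ring
      omega
    · intro z hz hzx hzy
      rcases hl4 z (List.mem_cons_of_mem _ hz) with r | r | ⟨k, k1, k2, k3⟩ | ⟨k, k1, k2, k3⟩ | r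
      · exact absurd r hzx
      · exact absurd r hzy
      · have : z i = x i + k := by rw [k3]; simp [hi1]
        omega
      · have : z i = y i - k := by rw [k3]; simp [hi1]
        omega
      · omega
    · intro z hz hzx hzy hzc
      rcases hl4 z (List.mem_cons_of_mem _ hz) with r | r | ⟨k, k1, k2, k3⟩ | ⟨k, k1, k2, k3⟩ | r
      · exact absurd r hzx
      · exact absurd r hzy
      · have e1 : z i = x i + k := by rw [k3]; simp [hi1]
        refine ⟨k, ?_, by omega, by omega⟩
        have e2 := h1 (k - 1) (by omega)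
        have e3 : k - 1 + 1 = k := by omega
        rw [e3, ← k3] at e2
        exact fun hf => e2 ⟨hzc, hf⟩
      · have e1 : z i = y i - k := by rw [k3]; simp [hi1]
        refine ⟨k, ?_, by omega, by omega⟩
        have e2 := h2 (k - 1) (by omega)
        have e3 : k - 1 + 1 = k := by omega
        rw [e3, ← k3] at e2
        exact fun hf => e2 ⟨hzc, hf⟩
      · refine ⟨h, ?_, by omega, by omega⟩
        exact fun hf => h3 z hz ⟨hzc, hf⟩
  have hp1 : ∀ f : ℕ → V d, law ν d (⋃ k ∈ range h, B (f k) (k + 1)) ≤ ENNReal.ofReal (1 / 15) := by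
    intro f
    refine (measure_biUnion_finset_le _ _).trans ?_
    refine (Finset.sum_le_sum fun k _ => hBp (f k) (k + 1)).trans ?_
    rw [← ENNReal.ofReal_sum_of_nonneg fun k _ => Real.exp_nonneg _]
    exact ENNReal.ofReal_le_ofReal (geo h)
  have hp3 : law ν d E3 ≤ ENNReal.ofReal (1 / 16) := by
    refine (measure_biUnion_finset_le _ _).trans ?_
    refine (Finset.sum_le_sum fun z _ => hBp z h).trans ?_
    rw [Finset.sum_const, nsmul_eq_mul]
    have e1 : (l.toFinset.card : ℝ≥0∞) ≤ (N : ℝ≥0∞) := by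
      exact_mod_cast (List.toFinset_card_le l).trans hlN
    refine (mul_le_mul_left e1 _).trans ?_
    rw [← ENNReal.ofReal_natCast, ← ENNReal.ofReal_mul (Nat.cast_nonneg _)]
    exact ENNReal.ofReal_le_ofReal (small_prob hg)
  have hp4 : law ν d E4 ≤ ENNReal.ofReal (1 / 4) := by
    have hmeas : ∀ z : V d, Measurable fun w : V d → ℝ => GG d K w z :=
      fun z => (hM d).2.2.2.2.2.2 d K z
    have hne : ((4 * M * N : ℕ) : ℝ≥0∞) ≠ 0 := by
      have : 0 < 4 * M * N := by positivity
      exact_mod_cast this.ne'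
    have h1 := meas_ge_le_lintegral_div (μ := law ν d)
      (f := fun w => ∑ z ∈ l.toFinset, GG d K w z)
      (Finset.measurable_fun_sum _ fun z _ => hmeas z).aemeasurable hne
      (ENNReal.natCast_ne_top _)
    refine h1.trans ?_
    rw [lintegral_finsetSum _ fun z _ => hmeas z]
    have h2 : ∑ z ∈ l.toFinset, ∫⁻ w, GG d K w z ∂law ν d ≤ (N : ℝ≥0∞) * M := by
      refine (Finset.sum_le_sum fun z _ => (lint_GG hT hM ν K hq z).trans hMM.le).trans ?_
      rw [Finset.sum_const, nsmul_eq_mul]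
      refine mul_le_mul_left ?_ _
      exact_mod_cast (List.toFinset_card_le l).trans hlN
    refine (ENNReal.div_le_div_right h2 _).trans ?_
    rw [ENNReal.div_le_iff hne (ENNReal.natCast_ne_top _)]
    have h3 : ((4 * M * N : ℕ) : ℝ≥0∞) = ENNReal.ofReal (4 * M * N) := by
      rw [← ENNReal.ofReal_natCast]; push_cast; rfl
    rw [h3, ← ENNReal.ofReal_mul (by norm_num), ← ENNReal.ofReal_natCast, ← ENNReal.ofReal_natCast,
      ← ENNReal.ofReal_mul (Nat.cast_nonneg _)]
    refine ENNReal.ofReal_le_ofReal (le_of_eq ?_)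
    ring
  have hfin : (1 : ℝ≥0∞) ≤ law ν d {w | Con K w i (17 * d * (1 + 4 * M) * g) x y} + 2⁻¹ := by
    calc (1 : ℝ≥0∞) = law ν d Set.univ := measure_univ.symm
      _ ≤ law ν d ({w | Con K w i (17 * d * (1 + 4 * M) * g) x y} ∪ (E1 ∪ (E2 ∪ (E3 ∪ E4)))) :=
          measure_mono hsub
      _ ≤ law ν d {w | Con K w i (17 * d * (1 + 4 * M) * g) x y} +
            (law ν d E1 + (law ν d E2 + (law ν d E3 + law ν d E4))) := by
          refine (measure_union_le _ _).trans (add_le_add le_rfl ?_)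
          refine (measure_union_le _ _).trans (add_le_add le_rfl ?_)
          refine (measure_union_le _ _).trans (add_le_add le_rfl ?_)
          exact measure_union_le _ _
      _ ≤ law ν d {w | Con K w i (17 * d * (1 + 4 * M) * g) x y} +
            (ENNReal.ofReal (1 / 15) + (ENNReal.ofReal (1 / 15) + (ENNReal.ofReal (1 / 16) +
              ENNReal.ofReal (1 / 4)))) :=
          add_le_add le_rfl (add_le_add (hp1 _) (add_le_add (hp1 _) (add_le_add hp3 hp4)))
      _ ≤ law ν d {w | Con K w i (17 * d * (1 + 4 * M) * g) x y} + 2⁻¹ := by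
          refine add_le_add le_rfl ?_
          rw [← ENNReal.ofReal_add (by norm_num) (by norm_num),
            ← ENNReal.ofReal_add (by norm_num) (by norm_num),
            ← ENNReal.ofReal_add (by norm_num) (by norm_num)]
          have : (2⁻¹ : ℝ≥0∞) = ENNReal.ofReal (1 / 2) := by
            rw [ENNReal.ofReal_div_of_pos (by norm_num)]; simp
          rw [this]
          exact ENNReal.ofReal_le_ofReal (by norm_num)
  have h12 : (1 : ℝ≥0∞) = 2⁻¹ + 2⁻¹ := (ENNReal.inv_two_add_inv_two).symm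
  rw [h12] at hfin
  exact ENNReal.le_of_add_le_add_right (by simp) hfin

end Pool.Agent.W683.GPCon
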